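import Pool.Agent.UTR.Stmts
import Pool.Agent.Helper59_BSE.One
import Pool.Agent.Helper85_BSE.DVB
import Pool.Agent.Helper64_FR.LOW

/-!
Rows ONU and FIN of table utr.
-/

open MeasureTheory Matrix Finset
open scoped ComplexConjugate

namespace Pool.Agent.UTR.H33

open Pool.Agent.Helper64_FR
open Pool.Agent.Helper64_FR.FIX

variable {n : ℕ}

theorem sum_dv_sq (B : Finset (Fin n)) (y : Fin n → ℝ) :
    ∑ i, H47.dv B y i ^ 2 = vr B y := Pool.Agent.BSE.H85.dvb n B y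

theorem oneOn_iff (w : Finset (Fin n) → ℝ) (μ : ℝ) :
    OneOn w Finset.univ μ ↔ Pool.Agent.BSE.OneBody w μ := by
  unfold OneOn Pool.Agent.BSE.OneBody
  simp_rw [sum_dv_sq, Finset.inter_univ]

/-- a nonzero eigenvector can be normalized -/
theorem eig_formula (ρ : URep n) (w : Finset (Fin n) → ℝ) (v : ρ.Sp) (x : ℝ)
    (hx : LOW.lapOp ρ w v = (x : ℂ) • v) :
    x * ‖v‖ ^ 2 = ∑ B : Finset (Fin n), w B * ‖v - ρ.P B v‖ ^ 2 := by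
  have h1 : inner ℂ v (LOW.lapOp ρ w v) = ((x * ‖v‖ ^ 2 : ℝ) : ℂ) := by
    rw [hx, inner_smul_right, inner_self_eq_norm_sq_to_K]
    push_cast
    rfl
  have h2 : inner ℂ v (LOW.lapOp ρ w v) =
      ((∑ B : Finset (Fin n), w B * ‖v - ρ.P B v‖ ^ 2 : ℝ) : ℂ) := by
    rw [LOW.lapOp_eq, _root_.sum_apply, inner_sum, Complex.ofReal_sum]
    refine Finset.sum_congr rfl fun B _ => ?_
    have h3 : ((w B : ℂ) • (1 - ρ.P B)) v = (w B : ℂ) • ((1 - ρ.P B) v) := rfl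
    rw [h3, inner_smul_right, LOW.inner_one_sub_P]
    push_cast
    rfl
  rw [h1] at h2
  exact_mod_cast h2

theorem lapOp_of_lap (ρ : URep n) (w : Finset (Fin n) → ℝ) (v : Fin ρ.dim → ℂ) (x : ℝ)
    (hv : ρ.lap w *ᵥ v = (x : ℂ) • v) :
    LOW.lapOp ρ w (WithLp.toLp 2 v : ρ.Sp) = (x : ℂ) • (WithLp.toLp 2 v : ρ.Sp) := by
  have h : LOW.lapOp ρ w (WithLp.toLp 2 v : ρ.Sp) = WithLp.toLp 2 (ρ.lap w *ᵥ v) := rfl
  rw [h, hv]
  rfl

theorem toLp_ne (ρ : URep n) (v : Fin ρ.dim → ℂ) (hv : v ≠ 0) :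
    (WithLp.toLp 2 v : ρ.Sp) ≠ 0 := by
  intro h
  apply hv
  have h1 : v = WithLp.ofLp (WithLp.toLp 2 v : ρ.Sp) := rfl
  rw [h1, h]
  rfl

theorem lamMin_nonneg (ρ : URep n) (w : Finset (Fin n) → ℝ) (hw : ∀ B, 0 ≤ w B) :
    0 ≤ ρ.lamMin w := by
  refine Real.sInf_nonneg ?_
  rintro x ⟨v, hv0, hv⟩
  have h1 := eig_formula ρ w _ x (lapOp_of_lap ρ w v x hv)
  have h2 : 0 < ‖(WithLp.toLp 2 v : ρ.Sp)‖ ^ 2 := by
    have := norm_pos_iff.2 (toLp_ne ρ v hv0)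
    positivity
  have h3 : 0 ≤ ∑ B : Finset (Fin n), w B *
      ‖(WithLp.toLp 2 v : ρ.Sp) - ρ.P B (WithLp.toLp 2 v : ρ.Sp)‖ ^ 2 :=
    Finset.sum_nonneg fun B _ => mul_nonneg (hw B) (by positivity)
  rw [← h1] at h3
  exact nonneg_of_mul_nonneg_left h3 h2

theorem onu : ONUStmt := by
  intro n _ α hα w hw
  exact ⟨(oneOn_iff w _).2 (Pool.Agent.BSE.H59.one n α hα w hw), lamMin_nonneg α w hw⟩

end Pool.Agent.UTR.H33
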