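import Pool.Agent.Helper33_UTR.Kit
import Pool.Agent.Helper33_UTR.Onu

/-!
Row FIN of table utr.
-/

open MeasureTheory Matrix Finset
open scoped ComplexConjugate

namespace Pool.Agent.UTR.H33

open Pool.Agent.Helper64_FR
open Pool.Agent.Helper64_FR.FIX

variable {n : ℕ}

theorem oneOn_of_chain (hn : 2 ≤ n) {w : Finset (Fin n) → ℝ} {μ : ℝ} {T : Finset (Fin n)}
    (h : Chain w μ T) (hT : T = Finset.univ) : OneOn w Finset.univ μ := by
  cases h with
  | base i =>
    exfalso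
    have h1 : ({i} : Finset (Fin n)).card = (Finset.univ : Finset (Fin n)).card := by rw [hT]
    rw [Finset.card_singleton, Finset.card_univ, Fintype.card_fin] at h1
    omega
  | step S l _ _ h3 =>
    rw [← hT]
    exact h3

/-- the averaging over the whole group vanishes for a nontrivial irreducible representation -/
theorem P_univ_zero (ρ : URep n) (hρ : ρ.Irred) (hne : ¬ ∀ g : UU n, ρ.mat g = 1) (v : ρ.Sp) :
    ρ.P Finset.univ v = 0 := by
  let W : Submodule ℂ (Fin ρ.dim → ℂ) :=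
    { carrier := {x | ρ.P Finset.univ (WithLp.toLp 2 x) = WithLp.toLp 2 x}
      add_mem' := by
        intro x y hx hy
        show ρ.P Finset.univ (WithLp.toLp 2 (x + y)) = _
        rw [WithLp.toLp_add, map_add]
        exact congrArg₂ (· + ·) hx hy
      zero_mem' := by
        show ρ.P Finset.univ (WithLp.toLp 2 0) = _
        rw [WithLp.toLp_zero, map_zero]
      smul_mem' := by
        intro c x hx
        show ρ.P Finset.univ (WithLp.toLp 2 (c • x)) = _
        rw [WithLp.toLp_smul, map_smul]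
        exact congrArg (c • ·) hx }
  have hfix : ∀ x ∈ W, ∀ g : UU n,
      ρ.op g (WithLp.toLp 2 x : ρ.Sp) = (WithLp.toLp 2 x : ρ.Sp) := by
    intro x hx g
    have hx' : ρ.P Finset.univ (WithLp.toLp 2 x) = WithLp.toLp 2 x := hx
    rw [← hx']
    exact P_apply_inv ρ Finset.univ _ g (LOW.mem_UB_univ g)
  have hW : W = ⊥ ∨ W = ⊤ := by
    apply hρ.2
    intro g x hx
    show ρ.P Finset.univ (WithLp.toLp 2 (ρ.mat g *ᵥ x)) = WithLp.toLp 2 (ρ.mat g *ᵥ x)
    have hx' : ρ.P Finset.univ (WithLp.toLp 2 x) = WithLp.toLp 2 x := hx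
    have h1 : (WithLp.toLp 2 (ρ.mat g *ᵥ x) : ρ.Sp) = ρ.op g (WithLp.toLp 2 x) := rfl
    rw [h1, hfix x hx g, hx']
  rcases hW with h | h
  · have h1 : WithLp.ofLp (ρ.P Finset.univ v) ∈ W := by
      show ρ.P Finset.univ (ρ.P Finset.univ v) = ρ.P Finset.univ v
      exact P_inv ρ _ _ (P_apply_inv ρ _ v)
    rw [h, Submodule.mem_bot] at h1
    have : ρ.P Finset.univ v = WithLp.toLp 2 (WithLp.ofLp (ρ.P Finset.univ v)) := rfl
    rw [this, h1]
    rfl
  · exfalso
    apply hne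
    intro g
    have h1 : ∀ x : Fin ρ.dim → ℂ, ρ.mat g *ᵥ x = x := by
      intro x
      have hx : x ∈ W := by rw [h]; trivial
      have h2 := hfix x hx g
      have h3 : ρ.op g (WithLp.toLp 2 x : ρ.Sp) = WithLp.toLp 2 (ρ.mat g *ᵥ x) := rfl
      rw [h3] at h2
      exact congrArg WithLp.ofLp h2
    refine Matrix.ext_of_mulVec_single fun i => ?_
    rw [h1, Matrix.one_mulVec]

theorem fin (hCHN : CHNStmt) : FINStmt := by
  intro n hn w hw μ hch ρ hρ hne
  have hO : OneOn w Finset.univ μ := oneOn_of_chain hn hch rfl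
  have hB := (oneOn_iff w μ).1 hO
  have hG := hCHN n ρ w hw μ Finset.univ hch
  refine le_csInf (LOW.eig_nonempty ρ hρ.1 w) ?_
  rintro x ⟨v, hv0, hv⟩
  rcases Pool.Agent.BSE.H81.wts n hn ρ w hw μ hB x v hv0 hv with h | h
  · exact h
  · have hT : TInv ρ (WithLp.toLp 2 v : ρ.Sp) := by
      intro i g hg
      have h3 : ρ.op g (WithLp.toLp 2 v : ρ.Sp) = WithLp.toLp 2 (ρ.mat g *ᵥ v) := rfl
      rw [h3, h i g hg]
    have h1 := hG _ hT
    rw [P_univ_zero ρ hρ hne, norm_zero] at h1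
    have h2 := eig_formula ρ w _ x (lapOp_of_lap ρ w v x hv)
    simp_rw [Finset.inter_univ, pyth] at h1
    rw [← h2] at h1
    have h3 : 0 < ‖(WithLp.toLp 2 v : ρ.Sp)‖ ^ 2 := by
      have := norm_pos_iff.2 (toLp_ne ρ v hv0)
      positivity
    have h4 : μ * ‖(WithLp.toLp 2 v : ρ.Sp)‖ ^ 2 ≤ x * ‖(WithLp.toLp 2 v : ρ.Sp)‖ ^ 2 := by
      linarith
    exact le_of_mul_le_mul_right h4 h3

end Pool.Agent.UTR.H33
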