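import Pool.Agent.UTR.Stmts
import Pool.Agent.Helper81_BSE.Wts
import Pool.Agent.Helper64_FR.FIX

/-!
Kit for rows STP, FIN, KSY of table utr.
-/

open MeasureTheory Matrix Finset
open scoped ComplexConjugate

namespace Pool.Agent.UTR.H33

open Pool.Agent.Helper64_FR
open Pool.Agent.Helper64_FR.FIX

variable {n : ℕ}

theorem inner_P_left (ρ : URep n) (B : Finset (Fin n)) (x y : ρ.Sp) :
    inner ℂ (ρ.P B x) y = inner ℂ x (ρ.P B y) := by
  conv_lhs => rw [← P_star ρ B]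
  rw [ContinuousLinearMap.star_eq_adjoint, ContinuousLinearMap.adjoint_inner_left]

theorem P_P (ρ : URep n) (B : Finset (Fin n)) (x : ρ.Sp) : ρ.P B (ρ.P B x) = ρ.P B x :=
  P_inv ρ B _ (P_apply_inv ρ B x)

/-- `‖f‖² - ‖P_B f‖² = ‖f - P_B f‖²` -/
theorem pyth (ρ : URep n) (B : Finset (Fin n)) (f : ρ.Sp) :
    ‖f‖ ^ 2 - ‖ρ.P B f‖ ^ 2 = ‖f - ρ.P B f‖ ^ 2 := by
  have h0 : inner ℂ (f - ρ.P B f) (ρ.P B f) = (0 : ℂ) := by
    rw [inner_sub_left, inner_P_left, P_P, sub_self]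
  have h1 := norm_add_sq_eq_norm_sq_add_norm_sq_of_inner_eq_zero (𝕜 := ℂ) _ _ h0
  rw [sub_add_cancel] at h1
  nlinarith [h1]

/-- fixed by a larger group -/
theorem Fx_mono {ρ : URep n} {A B : Finset (Fin n)} (h : A ⊆ B) {f : ρ.Sp} (hf : Fx ρ B f) :
    Fx ρ A f := fun g hg => hf g (Pool.Agent.BSE.H81.UB_mono h hg)

theorem P_of_Fx {ρ : URep n} {B : Finset (Fin n)} {f : ρ.Sp} (hf : Fx ρ B f) :
    ρ.P B f = f := P_inv ρ B f hf

theorem Fx_P (ρ : URep n) (B : Finset (Fin n)) (f : ρ.Sp) : Fx ρ B (ρ.P B f) :=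
  P_apply_inv ρ B f

/-- `P_A P_B = P_B` for `A ⊆ B` -/
theorem P_P_of_subset (ρ : URep n) {A B : Finset (Fin n)} (h : A ⊆ B) (f : ρ.Sp) :
    ρ.P A (ρ.P B f) = ρ.P B f := P_of_Fx (Fx_mono h (Fx_P ρ B f))

/-- `P_B P_A = P_B` for `A ⊆ B` -/
theorem P_P_of_subset' (ρ : URep n) {A B : Finset (Fin n)} (h : A ⊆ B) (f : ρ.Sp) :
    ρ.P B (ρ.P A f) = ρ.P B f := by
  refine ext_inner_left ℂ fun x => ?_
  rw [← inner_P_left, ← inner_P_left, ← inner_P_left, P_P_of_subset ρ h]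

/-- the projection preserves torus invariance -/
theorem TInv_P {ρ : URep n} (B : Finset (Fin n)) {f : ρ.Sp} (hf : TInv ρ f) :
    TInv ρ (ρ.P B f) := by
  intro i h hh
  by_cases hi : i ∈ B
  · exact Fx_P ρ B f h (Pool.Agent.BSE.H81.UB_mono (Finset.singleton_subset_iff.mpr hi) hh)
  · have h1 : ρ.op h * ρ.P B = ρ.P B * ρ.op h :=
      Pool.Agent.BSE.H81.op_comm_P ρ B h fun g hg => Pool.Agent.BSE.H81.comm_of_notMem hi hh hg
    have h2 : ρ.op h (ρ.P B f) = ρ.P B (ρ.op h f) :=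
      congrArg (fun T : ρ.Sp →L[ℂ] ρ.Sp => T f) h1
    rw [h2, hf i h hh]

theorem TInv_sub {ρ : URep n} {f g : ρ.Sp} (hf : TInv ρ f) (hg : TInv ρ g) : TInv ρ (f - g) := by
  intro i h hh
  rw [map_sub, hf i h hh, hg i h hh]

theorem TInv_smul {ρ : URep n} {f : ρ.Sp} (c : ℂ) (hf : TInv ρ f) : TInv ρ (c • f) := by
  intro i h hh
  rw [map_smul, hf i h hh]

theorem TInv_sum {ρ : URep n} {ι : Type*} (s : Finset ι) (f : ι → ρ.Sp)
    (hf : ∀ i ∈ s, TInv ρ (f i)) : TInv ρ (∑ i ∈ s, f i) := by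
  intro i h hh
  rw [map_sum]
  exact Finset.sum_congr rfl fun j hj => hf j hj i h hh

end Pool.Agent.UTR.H33
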