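import Pool.Agent.Helper33_UTR.Kit
import Pool.Agent.Helper64_FR.DERP
import Pool.Agent.Helper64_FR.LOW

/-!
Row KSY of table utr.
-/

open MeasureTheory Matrix Finset
open scoped ComplexConjugate

namespace Pool.Agent.UTR.H33

open Pool.Agent.Helper64_FR
open Pool.Agent.Helper64_FR.FIX

variable {n : ℕ}

theorem star_EE (i j : Fin n) : star (EE i j) = (EE j i : Matrix (Fin n) (Fin n) ℂ) := by
  ext a b
  simp only [Matrix.star_apply, Matrix.single_apply]
  by_cases h : i = b ∧ j = a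
  · rw [if_pos h, if_pos ⟨h.2, h.1⟩, star_one]
  · rw [if_neg h, if_neg (fun h' => h ⟨h'.2, h'.1⟩), star_zero]

theorem star_D {ρ : URep n} {D : Matrix (Fin n) (Fin n) ℂ →ₗ[ℂ] (ρ.Sp →L[ℂ] ρ.Sp)}
    (hD : IsDer ρ D) (i j : Fin n) : star (D (EE i j)) = D (EE j i) := by
  rw [hD.star_eq, star_EE]

theorem inner_D_left {ρ : URep n} {D : Matrix (Fin n) (Fin n) ℂ →ₗ[ℂ] (ρ.Sp →L[ℂ] ρ.Sp)}
    (hD : IsDer ρ D) (i j : Fin n) (x y : ρ.Sp) :
    inner ℂ (D (EE i j) x) y = inner ℂ x (D (EE j i) y) := by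
  rw [← star_D hD j i, ContinuousLinearMap.star_eq_adjoint,
    ContinuousLinearMap.adjoint_inner_left]

/-- `E_ij v = 0` for `v` fixed by `U_B`, `i, j ∈ B` -/
theorem D_zero {ρ : URep n} {D : Matrix (Fin n) (Fin n) ℂ →ₗ[ℂ] (ρ.Sp →L[ℂ] ρ.Sp)}
    (hD : IsDer ρ D) {B : Finset (Fin n)} {v : ρ.Sp} (hv : Fx ρ B v) {i j : Fin n} (hi : i ∈ B)
    (hj : j ∈ B) : D (EE i j) v = 0 := by
  have h1 := DERP_proof FIX_proof n ρ D hD B i j hi hj
  have h2 : (D (EE i j) * ρ.P B) v = 0 := by rw [h1]; rfl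
  have h3 : (D (EE i j) * ρ.P B) v = D (EE i j) (ρ.P B v) := rfl
  rw [h3, P_of_Fx hv] at h2
  exact h2

theorem star_Kz {ρ : URep n} {D : Matrix (Fin n) (Fin n) ℂ →ₗ[ℂ] (ρ.Sp →L[ℂ] ρ.Sp)}
    (hD : IsDer ρ D) (S : Finset (Fin n)) (l : Fin n) : star (Kz ρ D S l) = Kz ρ D S l := by
  unfold Kz
  have h : star (∑ i ∈ S, Tz ρ D i i l) = ∑ i ∈ S, star (Tz ρ D i i l) := LOW.star_sum' _ _
  rw [h]
  refine Finset.sum_congr rfl fun i _ => ?_
  unfold Tz
  rw [star_mul, star_D hD, star_D hD]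

theorem Kz_apply {ρ : URep n} (D : Matrix (Fin n) (Fin n) ℂ →ₗ[ℂ] (ρ.Sp →L[ℂ] ρ.Sp))
    (S : Finset (Fin n)) (l : Fin n) (v : ρ.Sp) :
    Kz ρ D S l v = ∑ i ∈ S, Tz ρ D i i l v := by
  unfold Kz
  rw [_root_.sum_apply]

theorem ksy (hEQV : EQVStmt) (hGEN : GENStmt) : KSYStmt := by
  intro n ρ D hD S l hl
  refine ⟨star_Kz hD S l, ?_⟩
  intro v hv hvS
  obtain ⟨he1, he2⟩ := hEQV n ρ D hD S l hl v hv hvS
  refine ⟨⟨?_, ?_⟩, ?_⟩
  · rw [Kz_apply]
    exact TInv_sum _ _ he1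
  · rcases S.eq_empty_or_nonempty with hS | ⟨i, hi⟩
    · subst hS
      rw [Kz_apply, Finset.sum_empty]
      intro h _
      rw [map_zero]
    · have h1 := he2 S (Finset.Subset.refl S) i hi
      rw [if_pos hi, ← Kz_apply] at h1
      have hc : (S.card : ℂ) ≠ 0 := by
        rw [Nat.cast_ne_zero]
        exact Finset.card_ne_zero.2 ⟨i, hi⟩
      have h2 : Kz ρ D S l v = (S.card : ℂ) • ρ.P S (Tz ρ D i i l v) := by
        rw [h1, smul_smul, mul_one_div_cancel hc, one_smul]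
      rw [h2]
      intro h hh
      rw [map_smul, Fx_P ρ S _ h hh]
  · intro hK
    -- `E_li v = 0`
    have hTi : ∀ i ∈ S, (inner ℂ v (Tz ρ D i i l v) : ℂ) = ((‖D (EE l i) v‖ ^ 2 : ℝ) : ℂ) := by
      intro i _
      have h1 : Tz ρ D i i l v = D (EE i l) (D (EE l i) v) := rfl
      rw [h1, ← inner_D_left hD, inner_self_eq_norm_sq_to_K]
      push_cast
      rfl
    have hsum : ∑ i ∈ S, ‖D (EE l i) v‖ ^ 2 = 0 := by
      have h1 : (inner ℂ v (Kz ρ D S l v) : ℂ) = 0 := by rw [hK, inner_zero_right]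
      rw [Kz_apply, inner_sum, Finset.sum_congr rfl hTi, ← Complex.ofReal_sum] at h1
      exact_mod_cast h1
    have hli : ∀ i ∈ S, D (EE l i) v = 0 := by
      intro i hi
      have h1 := (Finset.sum_eq_zero_iff_of_nonneg fun j _ => by positivity).1 hsum i hi
      have h2 : ‖D (EE l i) v‖ = 0 := by
        exact pow_eq_zero_iff (two_ne_zero) |>.1 h1
      exact norm_eq_zero.1 h2
    have hll : D (EE l l) v = 0 :=
      D_zero hD (hv l) (Finset.mem_singleton_self l) (Finset.mem_singleton_self l)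
    have hil : ∀ i ∈ S, D (EE i l) v = 0 := by
      intro i hi
      have hne : i ≠ l := fun h => hl (h ▸ hi)
      have hii : D (EE i i) v = 0 := D_zero hD hvS hi hi
      have hc := hD.comm_eq (EE l i) (EE i l)
      have hm1 : (EE l i : Matrix (Fin n) (Fin n) ℂ) * EE i l = EE l l := by
        rw [Matrix.single_mul_single_same, mul_one]
      have hm2 : (EE i l : Matrix (Fin n) (Fin n) ℂ) * EE l i = EE i i := by
        rw [Matrix.single_mul_single_same, mul_one]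
      rw [hm1, hm2, map_sub] at hc
      have hc2 : D (EE l i) (D (EE i l) v) - D (EE i l) (D (EE l i) v) =
          D (EE l l) v - D (EE i i) v :=
        congrArg (fun T : ρ.Sp →L[ℂ] ρ.Sp => T v) hc
      rw [hli i hi, hll, hii, map_zero, sub_zero, sub_zero] at hc2
      have h3 : (inner ℂ (D (EE i l) v) (D (EE i l) v) : ℂ) = 0 := by
        rw [inner_D_left hD, hc2, inner_zero_right]
      exact inner_self_eq_zero.1 h3
    refine hGEN n ρ D hD (insert l S) v ?_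
    intro i hi j hj
    rcases Finset.mem_insert.1 hi with hi | hi
    · rcases Finset.mem_insert.1 hj with hj | hj
      · rw [hi, hj]
        exact hll
      · rw [hi]
        exact hli j hj
    · rcases Finset.mem_insert.1 hj with hj | hj
      · rw [hj]
        exact hil i hi
      · exact D_zero hD hvS hi hj

end Pool.Agent.UTR.H33
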