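import Pool.Agent.Helper33_UTR.Kit

/-!
Row STP of table utr.
-/

open MeasureTheory Matrix Finset
open scoped ComplexConjugate

namespace Pool.Agent.UTR.H33

open Pool.Agent.Helper64_FR
open Pool.Agent.Helper64_FR.FIX

variable {n : ℕ}

theorem vc_eq (B : Finset (Fin n)) (z : Fin n → ℂ) :
    vc B z = vr B (fun i => (z i).re) + vr B (fun i => (z i).im) := by
  unfold vc vr
  have h1 : ∀ x : ℂ, ‖x‖ ^ 2 = x.re ^ 2 + x.im ^ 2 := by
    intro x
    rw [← Complex.normSq_eq_norm_sq, Complex.normSq_apply]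
    ring
  simp_rw [h1, Finset.sum_add_distrib, Complex.re_sum, Complex.im_sum]
  ring

theorem oneOn_vc {w : Finset (Fin n) → ℝ} {S : Finset (Fin n)} {μ : ℝ} (h : OneOn w S μ)
    (z : Fin n → ℂ) : μ * vc S z ≤ ∑ B : Finset (Fin n), w B * vc (B ∩ S) z := by
  have h1 := h (fun i => (z i).re)
  have h2 := h (fun i => (z i).im)
  simp_rw [vc_eq, mul_add, Finset.sum_add_distrib]
  linarith

theorem sub_erase {B S : Finset (Fin n)} {l : Fin n} (hl : l ∉ S) :
    (B ∩ insert l S).erase l = B ∩ S := by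
  ext i
  simp only [Finset.mem_erase, Finset.mem_inter, Finset.mem_insert]
  constructor
  · rintro ⟨h1, h2, h3⟩
    exact ⟨h2, h3.resolve_left h1⟩
  · rintro ⟨h1, h2⟩
    exact ⟨fun h => hl (h ▸ h2), h1, Or.inr h2⟩

theorem stp (hPRJ : PRJStmt) (hENB : ENBStmt) : STPStmt := by
  intro n ρ S l hl F w hw μ hS hO f hf
  -- reduction to `f'`
  obtain ⟨f', hf'⟩ : ∃ f' : ρ.Sp, f' = f - ρ.P (insert l S) f := ⟨_, rfl⟩
  have hf'T : TInv ρ f' := by
    rw [hf']
    exact TInv_sub hf (TInv_P _ hf)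
  have hP' : ρ.P (insert l S) f' = 0 := by
    rw [hf', map_sub, P_P, sub_self]
  have hdiff : ∀ B, B ⊆ insert l S →
      ‖f‖ ^ 2 - ‖ρ.P B f‖ ^ 2 = ‖f'‖ ^ 2 - ‖ρ.P B f'‖ ^ 2 := by
    intro B hB
    rw [pyth, pyth]
    congr 2
    rw [hf', map_sub, P_P_of_subset ρ hB]
    abel
  obtain ⟨p, hp, hnorm⟩ := hPRJ n ρ S l hl F S (Finset.Subset.refl S) f'
  obtain ⟨g, hg⟩ : ∃ g : ρ.Sp, g = f' - p := ⟨_, rfl⟩
  have hpT : TInv ρ p := by
    obtain ⟨c, hc⟩ := hp.1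
    rw [hc]
    exact TInv_sum _ _ fun t _ => TInv_sum _ _ fun i hi => TInv_smul _ (F.tinv t i hi)
  have hgT : TInv ρ g := by
    rw [hg]
    exact TInv_sub hf'T hpT
  -- `P_{S'} (a t i) = 0`
  have hPa : ∀ t, ∀ i ∈ S, ρ.P (insert l S) (F.a t i) = 0 := by
    intro t i hi
    have hne : i ≠ l := fun h => hl (h ▸ hi)
    have h1 : inner ℂ (F.a t i) (ρ.P (insert l S) (F.a t i)) = (0 : ℂ) :=
      F.orth t (insert l S) (Finset.Subset.refl _) (Finset.mem_insert_self l S) i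
        (Finset.mem_insert_of_mem hi) hne _ (TInv_P _ (F.tinv t i hi)) (Fx_P ρ _ _)
    have h2 : inner ℂ (ρ.P (insert l S) (F.a t i)) (ρ.P (insert l S) (F.a t i)) = (0 : ℂ) := by
      rw [inner_P_left, P_P, h1]
    exact inner_self_eq_zero.1 h2
  have hPp : ρ.P (insert l S) p = 0 := by
    obtain ⟨c, hc⟩ := hp.1
    rw [hc, map_sum]
    refine Finset.sum_eq_zero fun t _ => ?_
    rw [map_sum]
    refine Finset.sum_eq_zero fun i hi => ?_
    rw [map_smul, hPa t i hi, smul_zero]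
  have hPg : ρ.P S g = 0 := by
    have h1 : Fx ρ (insert l S) (ρ.P S g) := F.tot g hgT fun t i hi => by
      rw [hg]
      exact hp.2 t i hi
    have h2 : ρ.P (insert l S) (ρ.P S g) = ρ.P S g := P_of_Fx h1
    rw [P_P_of_subset' ρ (Finset.subset_insert l S)] at h2
    rw [← h2, hg, map_sub, hP', hPp, sub_zero]
  -- the block inequalities
  have hblock : ∀ B : Finset (Fin n),
      w B * ∑ t, vc (B ∩ insert l S) (zf F t f') + w B * (‖g‖ ^ 2 - ‖ρ.P (B ∩ S) g‖ ^ 2) ≤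
        w B * (‖f‖ ^ 2 - ‖ρ.P (B ∩ insert l S) f‖ ^ 2) := by
    intro B
    have h1 := hENB n ρ S l hl F f' p hf'T hp (B ∩ insert l S) Finset.inter_subset_right
    rw [sub_erase hl, ← hg, ← hdiff _ Finset.inter_subset_right] at h1
    rw [← mul_add]
    exact mul_le_mul_of_nonneg_left h1 (hw B)
  have hsum := Finset.sum_le_sum fun B (_ : B ∈ (Finset.univ : Finset (Finset (Fin n)))) =>
    hblock B
  rw [Finset.sum_add_distrib] at hsum
  have hG := hS g hgT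
  rw [hPg, norm_zero] at hG
  have hV : μ * ∑ t, vc (insert l S) (zf F t f') ≤
      ∑ B : Finset (Fin n), w B * ∑ t, vc (B ∩ insert l S) (zf F t f') := by
    rw [Finset.mul_sum]
    simp_rw [Finset.mul_sum]
    rw [Finset.sum_comm]
    exact Finset.sum_le_sum fun t _ => oneOn_vc hO _
  have h3 : ‖f‖ ^ 2 - ‖ρ.P (insert l S) f‖ ^ 2 = ‖f'‖ ^ 2 := by
    rw [hdiff _ (Finset.Subset.refl _), hP', norm_zero]
    ring
  rw [h3]
  rw [← hg] at hnorm
  calc μ * ‖f'‖ ^ 2 = μ * (‖g‖ ^ 2 - 0 ^ 2) + μ * ∑ t, vc (insert l S) (zf F t f') := by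
        rw [hnorm]
        ring
    _ ≤ _ := by linarith

end Pool.Agent.UTR.H33
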